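import Mathlib
import Pool.Agent.W2helper81.BY.Stm

set_option autoImplicit false

namespace Pool.Agent.W2helper15.BY

open Polynomial Pool.Agent.W2helper81.BY

theorem VAR1_ok : P_VAR1 := by
  intro k A _ _ _ a ha h
  haveI := h.dom
  haveI := h.smooth
  refine ⟨?_, ?_⟩
  · exact IsLocalization.isDomain_localization (powers_le_nonZeroDivisors_of_noZeroDivisors ha)
  · haveI : Algebra.Smooth A (Localization.Away a) := Algebra.Smooth.of_isLocalization_Away a
    exact Algebra.Smooth.comp k A (Localization.Away a)

theorem VAR2_ok : P_VAR2 := by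
  intro k A _ _ _ h
  haveI := h.dom
  haveI := h.smooth
  refine ⟨inferInstance, ?_⟩
  haveI : Algebra.Smooth A A[X] := ⟨inferInstance, inferInstance⟩
  exact Algebra.Smooth.comp k A A[X]

theorem VAR3_ok : P_VAR3 := by
  intro k _ m
  exact ⟨inferInstance, ⟨inferInstance, inferInstance⟩⟩

end Pool.Agent.W2helper15.BY
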